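import Pool.Agent.helper17.CH.SpecW

set_option autoImplicit false

namespace Pool.Agent.CH

open Finset ArithmeticFunction MeasureTheory

/-- the Gaussian density of variance `V` -/
private noncomputable def HP_g (V z : ℝ) : ℝ := Real.exp (-(z ^ 2) / (2 * V)) / √(2 * Real.pi * V)

private theorem HP_ph_cont (δ : ℝ) : Continuous (ph δ) := by
  unfold ph
  fun_prop

private theorem HP_ph_int {δ : ℝ} (hδ : 0 < δ) (x : ℝ) : Integrable (fun u => ph δ (x - u)) := by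
  have h1 : Integrable (fun u : ℝ => ph δ u) := by
    have h := (integrable_exp_neg_mul_sq (b := 1 / (2 * δ ^ 2)) (by positivity)).div_const
      (δ * √(2 * Real.pi))
    refine h.congr (Filter.Eventually.of_forall fun u => ?_)
    simp only [ph]
    congr 2
    field_simp
  exact h1.comp_sub_left x

private theorem HP_ph_bd {δ : ℝ} (hδ : 0 < δ) (u : ℝ) : |ph δ u| ≤ 1 / (δ * √(2 * Real.pi)) := by
  unfold ph
  have h0 : 0 < δ * √(2 * Real.pi) := by positivity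
  rw [abs_div, abs_of_pos h0, Real.abs_exp]
  refine div_le_div_of_nonneg_right ?_ h0.le
  rw [Real.exp_le_one_iff]
  have : 0 ≤ u ^ 2 / (2 * δ ^ 2) := by positivity
  have e : -(u ^ 2) / (2 * δ ^ 2) = -(u ^ 2 / (2 * δ ^ 2)) := by ring
  linarith

private theorem HP_gauss1 {a b : ℝ} (ha : 0 < a) (hb : 0 < b) (x y : ℝ) :
    Integrable (fun u => ph a (x - u) * ph b (y - u)) ∧
      ∫ u : ℝ, ph a (x - u) * ph b (y - u) = HP_g (a ^ 2 + b ^ 2) (x - y) := by
  have hab : 0 < a ^ 2 + b ^ 2 := by positivity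
  set A : ℝ := (a ^ 2 + b ^ 2) / (2 * a ^ 2 * b ^ 2) with hA
  have hA0 : 0 < A := by rw [hA]; positivity
  set m : ℝ := (x * b ^ 2 + y * a ^ 2) / (a ^ 2 + b ^ 2) with hm
  have key : ∀ u : ℝ, ph a (x - u) * ph b (y - u) =
      (Real.exp (-((x - y) ^ 2) / (2 * (a ^ 2 + b ^ 2))) / (a * √(2 * Real.pi) * (b * √(2 * Real.pi)))) *
        Real.exp (-A * (u - m) ^ 2) := by
    intro u
    unfold ph
    rw [div_mul_div_comm, ← Real.exp_add, div_mul_eq_mul_div, ← Real.exp_add]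
    congr 2
    rw [hA, hm]
    field_simp
    ring
  have hi : Integrable (fun u : ℝ => Real.exp (-A * (u - m) ^ 2)) :=
    (integrable_exp_neg_mul_sq hA0).comp_sub_right m
  constructor
  · exact (hi.const_mul _).congr (Filter.Eventually.of_forall fun u => (key u).symm)
  · simp_rw [key]
    rw [integral_const_mul]
    have h1 : ∫ u : ℝ, Real.exp (-A * (u - m) ^ 2) = √(Real.pi / A) := by
      rw [integral_sub_right_eq_self (fun u : ℝ => Real.exp (-A * u ^ 2)) m, integral_gaussian]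
    rw [h1]
    unfold HP_g
    have hpi := Real.pi_pos
    have h2 : √(Real.pi / A) = a * b * √(2 * Real.pi) / √(a ^ 2 + b ^ 2) := by
      have : Real.pi / A = (a * b) ^ 2 * (2 * Real.pi) / (a ^ 2 + b ^ 2) := by
        rw [hA]; field_simp
      rw [this, Real.sqrt_div (by positivity), Real.sqrt_mul (by positivity),
        Real.sqrt_sq (by positivity)]
    rw [h2, Real.sqrt_mul (by positivity) (a ^ 2 + b ^ 2)]
    have h3 : √(2 * Real.pi) ≠ 0 := by positivity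
    have h4 : √(a ^ 2 + b ^ 2) ≠ 0 := by positivity
    field_simp

private theorem HP_gauss2 {V : ℝ} (hV : 0 < V) (z : ℝ) :
    Integrable (fun t : ℝ => Complex.exp (((t * z : ℝ) : ℂ) * Complex.I) *
      ((Real.exp (-(V * t ^ 2) / 2) : ℝ) : ℂ)) ∧
    ∫ t : ℝ, Complex.exp (((t * z : ℝ) : ℂ) * Complex.I) *
      ((Real.exp (-(V * t ^ 2) / 2) : ℝ) : ℂ) = ((2 * Real.pi * HP_g V z : ℝ) : ℂ) := by
  have hpi := Real.pi_pos
  have hre : 0 < (((V / 2 : ℝ) : ℂ)).re := by rw [Complex.ofReal_re]; positivity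
  have key : ∀ t : ℝ, Complex.exp (((t * z : ℝ) : ℂ) * Complex.I) *
      ((Real.exp (-(V * t ^ 2) / 2) : ℝ) : ℂ) =
      Complex.exp (Complex.I * (z : ℂ) * t) * Complex.exp (-((V / 2 : ℝ) : ℂ) * (t : ℂ) ^ 2) := by
    intro t
    rw [Complex.ofReal_exp]
    congr 2
    · push_cast; ring
    · push_cast; ring
  constructor
  · have h := integrable_cexp_quadratic hre (Complex.I * (z : ℂ)) 0
    refine h.congr (Filter.Eventually.of_forall fun t => ?_)
    simp only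
    rw [key, ← Complex.exp_add]
    congr 1
    ring
  · simp_rw [key]
    rw [fourierIntegral_gaussian hre]
    unfold HP_g
    have h1 : ((Real.pi : ℂ) / ((V / 2 : ℝ) : ℂ)) ^ (1 / 2 : ℂ) = ((√(2 * Real.pi / V) : ℝ) : ℂ) := by
      have e : ((Real.pi : ℂ) / ((V / 2 : ℝ) : ℂ)) = ((2 * Real.pi / V : ℝ) : ℂ) := by
        push_cast
        field_simp
      rw [e, Real.sqrt_eq_rpow, Complex.ofReal_cpow (by positivity)]
      norm_num
    rw [h1]
    have h2 : Complex.exp (-(z : ℂ) ^ 2 / (4 * ((V / 2 : ℝ) : ℂ))) =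
        ((Real.exp (-(z ^ 2) / (2 * V)) : ℝ) : ℂ) := by
      rw [Complex.ofReal_exp]
      congr 1
      push_cast
      field_simp
      ring
    rw [h2, ← Complex.ofReal_mul]
    congr 1
    have h3 : √(2 * Real.pi / V) = 2 * Real.pi / √(2 * Real.pi * V) := by
      rw [Real.sqrt_div (by positivity), Real.sqrt_mul (by positivity) V]
      have h4 : √(2 * Real.pi) ≠ 0 := by positivity
      have h5 : √V ≠ 0 := by positivity
      rw [div_eq_div_iff h5 (by positivity)]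
      have h6 : √(2 * Real.pi) * √(2 * Real.pi) = 2 * Real.pi := Real.mul_self_sqrt (by positivity)
      calc √(2 * Real.pi) * (√(2 * Real.pi) * √V) = (√(2 * Real.pi) * √(2 * Real.pi)) * √V := by ring
        _ = _ := by rw [h6]
    rw [h3]
    ring

private theorem HP_int4 {E : Type*} [NormedAddCommGroup E] [NormedSpace ℝ E] {f1 f2 f3 f4 : ℝ → E}
    (h1 : Integrable f1) (h2 : Integrable f2) (h3 : Integrable f3) (h4 : Integrable f4) :
    Integrable (fun u => f1 u - f2 u - f3 u + f4 u) ∧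
      ∫ u, (f1 u - f2 u - f3 u + f4 u) =
        (∫ u, f1 u) - (∫ u, f2 u) - (∫ u, f3 u) + ∫ u, f4 u := by
  have h12 : Integrable (fun u => f1 u - f2 u) := h1.sub h2
  have h123 : Integrable (fun u => f1 u - f2 u - f3 u) := h12.sub h3
  refine ⟨h123.add h4, ?_⟩
  rw [integral_add h123 h4, integral_sub h12 h3, integral_sub h1 h2]

private theorem HP_kernel {δ δ' : ℝ} (hδ : 0 < δ) (hδ' : 0 < δ') (x y : ℝ) :
    Integrable (fun u => (ph δ (x - u) - ph δ' (x - u)) * (ph δ (y - u) - ph δ' (y - u))) ∧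
    Integrable (fun t : ℝ => Complex.exp (((t * (x - y) : ℝ) : ℂ) * Complex.I) *
      ((mu2 δ δ' t ^ 2 : ℝ) : ℂ)) ∧
    ∫ t : ℝ, Complex.exp (((t * (x - y) : ℝ) : ℂ) * Complex.I) * ((mu2 δ δ' t ^ 2 : ℝ) : ℂ) =
      ((2 * Real.pi * ∫ u : ℝ, (ph δ (x - u) - ph δ' (x - u)) *
        (ph δ (y - u) - ph δ' (y - u)) : ℝ) : ℂ) := by
  obtain ⟨i1, e1⟩ := HP_gauss1 hδ hδ x y
  obtain ⟨i2, e2⟩ := HP_gauss1 hδ hδ' x y
  obtain ⟨i3, e3⟩ := HP_gauss1 hδ' hδ x y
  obtain ⟨i4, e4⟩ := HP_gauss1 hδ' hδ' x y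
  obtain ⟨k1, l1⟩ := HP_gauss2 (V := δ ^ 2 + δ ^ 2) (by positivity) (x - y)
  obtain ⟨k2, l2⟩ := HP_gauss2 (V := δ ^ 2 + δ' ^ 2) (by positivity) (x - y)
  obtain ⟨k3, l3⟩ := HP_gauss2 (V := δ' ^ 2 + δ ^ 2) (by positivity) (x - y)
  obtain ⟨k4, l4⟩ := HP_gauss2 (V := δ' ^ 2 + δ' ^ 2) (by positivity) (x - y)
  have a1 : (fun u => (ph δ (x - u) - ph δ' (x - u)) * (ph δ (y - u) - ph δ' (y - u))) =
      fun u => ((ph δ (x - u) * ph δ (y - u) - ph δ (x - u) * ph δ' (y - u)) -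
        ph δ' (x - u) * ph δ (y - u)) + ph δ' (x - u) * ph δ' (y - u) := by
    ext u; ring
  have a2 : (fun t : ℝ => Complex.exp (((t * (x - y) : ℝ) : ℂ) * Complex.I) *
      ((mu2 δ δ' t ^ 2 : ℝ) : ℂ)) = fun t : ℝ =>
      ((Complex.exp (((t * (x - y) : ℝ) : ℂ) * Complex.I) *
          ((Real.exp (-((δ ^ 2 + δ ^ 2) * t ^ 2) / 2) : ℝ) : ℂ) -
        Complex.exp (((t * (x - y) : ℝ) : ℂ) * Complex.I) *
          ((Real.exp (-((δ ^ 2 + δ' ^ 2) * t ^ 2) / 2) : ℝ) : ℂ)) -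
        Complex.exp (((t * (x - y) : ℝ) : ℂ) * Complex.I) *
          ((Real.exp (-((δ' ^ 2 + δ ^ 2) * t ^ 2) / 2) : ℝ) : ℂ)) +
        Complex.exp (((t * (x - y) : ℝ) : ℂ) * Complex.I) *
          ((Real.exp (-((δ' ^ 2 + δ' ^ 2) * t ^ 2) / 2) : ℝ) : ℂ) := by
    ext t
    have b1 : mu2 δ δ' t ^ 2 = Real.exp (-((δ ^ 2 + δ ^ 2) * t ^ 2) / 2) -
        Real.exp (-((δ ^ 2 + δ' ^ 2) * t ^ 2) / 2) - Real.exp (-((δ' ^ 2 + δ ^ 2) * t ^ 2) / 2) +
        Real.exp (-((δ' ^ 2 + δ' ^ 2) * t ^ 2) / 2) := by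
      unfold mu2
      have c1 : Real.exp (-((δ ^ 2 + δ ^ 2) * t ^ 2) / 2) =
          Real.exp (-(δ ^ 2 * t ^ 2) / 2) * Real.exp (-(δ ^ 2 * t ^ 2) / 2) := by
        rw [← Real.exp_add]; congr 1; ring
      have c2 : Real.exp (-((δ ^ 2 + δ' ^ 2) * t ^ 2) / 2) =
          Real.exp (-(δ ^ 2 * t ^ 2) / 2) * Real.exp (-(δ' ^ 2 * t ^ 2) / 2) := by
        rw [← Real.exp_add]; congr 1; ring
      have c3 : Real.exp (-((δ' ^ 2 + δ ^ 2) * t ^ 2) / 2) =
          Real.exp (-(δ ^ 2 * t ^ 2) / 2) * Real.exp (-(δ' ^ 2 * t ^ 2) / 2) := by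
        rw [← Real.exp_add]; congr 1; ring
      have c4 : Real.exp (-((δ' ^ 2 + δ' ^ 2) * t ^ 2) / 2) =
          Real.exp (-(δ' ^ 2 * t ^ 2) / 2) * Real.exp (-(δ' ^ 2 * t ^ 2) / 2) := by
        rw [← Real.exp_add]; congr 1; ring
      rw [c1, c2, c3, c4]
      ring
    rw [b1]
    push_cast
    ring
  have hK : ∫ u : ℝ, (ph δ (x - u) - ph δ' (x - u)) * (ph δ (y - u) - ph δ' (y - u)) =
      HP_g (δ ^ 2 + δ ^ 2) (x - y) - HP_g (δ ^ 2 + δ' ^ 2) (x - y) -
        HP_g (δ' ^ 2 + δ ^ 2) (x - y) + HP_g (δ' ^ 2 + δ' ^ 2) (x - y) := by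
    rw [a1, (HP_int4 i1 i2 i3 i4).2, e1, e2, e3, e4]
  refine ⟨?_, ?_, ?_⟩
  · rw [a1]; exact (HP_int4 i1 i2 i3 i4).1
  · rw [a2]; exact (HP_int4 k1 k2 k3 k4).1
  · rw [hK, a2, (HP_int4 k1 k2 k3 k4).2, l1, l2, l3, l4]
    push_cast
    ring

private theorem HP_nit (t a b : ℝ) :
    nit t a * (starRingEnd ℂ) (nit t b) =
      Complex.exp (((t * (Real.log a - Real.log b) : ℝ) : ℂ) * Complex.I) := by
  unfold nit
  rw [← Complex.exp_conj, ← Complex.exp_add]
  congr 1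
  rw [map_mul, Complex.conj_ofReal, Complex.conj_I]
  push_cast
  ring

private theorem HP_planch {δ δ' : ℝ} (hδ : 0 < δ) (hδ' : 0 < δ') (T : Finset (ℕ × ℕ))
    (f : ℕ × ℕ → ℂ) (x : ℕ × ℕ → ℝ) :
    Integrable (fun u : ℝ => ‖∑ w ∈ T, f w *
      ((ph δ (Real.log (x w) - u) - ph δ' (Real.log (x w) - u) : ℝ) : ℂ)‖ ^ 2) ∧
    ∫ t : ℝ, ‖∑ w ∈ T, f w * nit t (x w)‖ ^ 2 * mu2 δ δ' t ^ 2 =
      2 * Real.pi * ∫ u : ℝ, ‖∑ w ∈ T, f w *
        ((ph δ (Real.log (x w) - u) - ph δ' (Real.log (x w) - u) : ℝ) : ℂ)‖ ^ 2 := by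
  set K : ℝ → ℝ := fun u => ph δ u - ph δ' u with hK
  have key := fun w w' : ℕ × ℕ => HP_kernel hδ hδ' (Real.log (x w)) (Real.log (x w'))
  -- expansion of the first square
  have eG : ∀ u : ℝ, ((‖∑ w ∈ T, f w * ((ph δ (Real.log (x w) - u) -
      ph δ' (Real.log (x w) - u) : ℝ) : ℂ)‖ ^ 2 : ℝ) : ℂ) =
      ∑ w ∈ T, ∑ w' ∈ T, (f w * (starRingEnd ℂ) (f w')) *
        (((ph δ (Real.log (x w) - u) - ph δ' (Real.log (x w) - u)) *
          (ph δ (Real.log (x w') - u) - ph δ' (Real.log (x w') - u)) : ℝ) : ℂ) := by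
    intro u
    rw [Complex.ofReal_pow, ← Complex.mul_conj', map_sum, Finset.sum_mul_sum]
    refine Finset.sum_congr rfl fun w _ => Finset.sum_congr rfl fun w' _ => ?_
    rw [map_mul, Complex.conj_ofReal, Complex.ofReal_mul]
    ring
  have eF : ∀ t : ℝ, ((‖∑ w ∈ T, f w * nit t (x w)‖ ^ 2 * mu2 δ δ' t ^ 2 : ℝ) : ℂ) =
      ∑ w ∈ T, ∑ w' ∈ T, (f w * (starRingEnd ℂ) (f w')) *
        (Complex.exp (((t * (Real.log (x w) - Real.log (x w')) : ℝ) : ℂ) * Complex.I) *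
          ((mu2 δ δ' t ^ 2 : ℝ) : ℂ)) := by
    intro t
    rw [Complex.ofReal_mul, Complex.ofReal_pow, ← Complex.mul_conj', map_sum,
      Finset.sum_mul_sum, Finset.sum_mul]
    refine Finset.sum_congr rfl fun w _ => ?_
    rw [Finset.sum_mul]
    refine Finset.sum_congr rfl fun w' _ => ?_
    rw [map_mul, ← HP_nit]
    ring
  have iG : ∀ w w' : ℕ × ℕ, Integrable (fun u : ℝ => (f w * (starRingEnd ℂ) (f w')) *
        (((ph δ (Real.log (x w) - u) - ph δ' (Real.log (x w) - u)) *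
          (ph δ (Real.log (x w') - u) - ph δ' (Real.log (x w') - u)) : ℝ) : ℂ)) := by
    intro w w'
    exact ((key w w').1.ofReal).const_mul _
  have iF : ∀ w w' : ℕ × ℕ, Integrable (fun t : ℝ => (f w * (starRingEnd ℂ) (f w')) *
        (Complex.exp (((t * (Real.log (x w) - Real.log (x w')) : ℝ) : ℂ) * Complex.I) *
          ((mu2 δ δ' t ^ 2 : ℝ) : ℂ))) := by
    intro w w'
    exact ((key w w').2.1).const_mul _
  have iG' : Integrable (fun u : ℝ => ((‖∑ w ∈ T, f w * ((ph δ (Real.log (x w) - u) -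
      ph δ' (Real.log (x w) - u) : ℝ) : ℂ)‖ ^ 2 : ℝ) : ℂ)) := by
    simp_rw [eG]
    exact integrable_finsetSum _ fun w _ => integrable_finsetSum _ fun w' _ => iG w w'
  have iGr : Integrable (fun u : ℝ => ‖∑ w ∈ T, f w *
      ((ph δ (Real.log (x w) - u) - ph δ' (Real.log (x w) - u) : ℝ) : ℂ)‖ ^ 2) := by
    have h := iG'.re
    exact h
  refine ⟨iGr, ?_⟩
  apply Complex.ofReal_injective
  rw [Complex.ofReal_mul, ← integral_complex_ofReal, ← integral_complex_ofReal]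
  simp_rw [eG, eF]
  rw [integral_finsetSum _ fun w _ => integrable_finsetSum _ fun w' _ => iF w w',
    integral_finsetSum _ fun w _ => integrable_finsetSum _ fun w' _ => iG w w',
    Finset.mul_sum]
  refine Finset.sum_congr rfl fun w _ => ?_
  rw [integral_finsetSum _ fun w' _ => iF w w', integral_finsetSum _ fun w' _ => iG w w',
    Finset.mul_sum]
  refine Finset.sum_congr rfl fun w' _ => ?_
  rw [integral_const_mul, integral_const_mul, (key w w').2.2, integral_complex_ofReal,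
    Complex.ofReal_mul]
  ring

/-- **HP**, from CCB. -/
theorem HP (hCCB : CCB_stmt) : HP_stmt := by
  obtain ⟨-, hC2, -, -, -, -⟩ := hCCB
  intro N c δ δ' T f hN hc hδ hδ' hT
  obtain ⟨hCb, hCs, hCi⟩ := hC2 N c hc
  have hN0 : (0 : ℝ) < N := by exact_mod_cast hN
  set K : ℝ → ℝ := fun u => ph δ u - ph δ' u with hK
  set G : ℝ → ℂ := fun u => ∑ w ∈ T, f w *
    ((ph δ (Real.log ((w.1 * w.2 : ℕ) : ℝ) - u) -
      ph δ' (Real.log ((w.1 * w.2 : ℕ) : ℝ) - u) : ℝ) : ℂ) with hG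
  obtain ⟨iG2, hplan⟩ := HP_planch hδ hδ' T f (fun w => ((w.1 * w.2 : ℕ) : ℝ))
  have hCm : AEStronglyMeasurable (CC N c) volume := hCi.aestronglyMeasurable
  have hCb' : ∀ᵐ u : ℝ, ‖CC N c u‖ ≤ 1 :=
    Filter.Eventually.of_forall fun u => by rw [Real.norm_eq_abs]; exact hCb u
  -- the integral formula for `gW`
  have hgW : ∀ j : ℕ, gW N c δ δ' j = ∫ u : ℝ, ((CC N c u : ℝ) : ℂ) *
      ((ph δ (Real.log j - u) - ph δ' (Real.log j - u) : ℝ) : ℂ) := by
    intro j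
    have i1 : Integrable (fun u => CC N c u * ph δ (Real.log j - u)) :=
      (HP_ph_int hδ _).bdd_mul hCm hCb'
    have i2 : Integrable (fun u => CC N c u * ph δ' (Real.log j - u)) :=
      (HP_ph_int hδ' _).bdd_mul hCm hCb'
    unfold gW Ph
    rw [← integral_sub i1 i2, ← integral_complex_ofReal]
    refine integral_congr_ae (Filter.Eventually.of_forall fun u => ?_)
    simp only
    push_cast
    ring
  have hiw : ∀ w : ℕ × ℕ, Integrable (fun u : ℝ => f w * (((CC N c u : ℝ) : ℂ) *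
      ((ph δ (Real.log ((w.1 * w.2 : ℕ) : ℝ) - u) -
        ph δ' (Real.log ((w.1 * w.2 : ℕ) : ℝ) - u) : ℝ) : ℂ))) := by
    intro w
    have i1 : Integrable (fun u => CC N c u * (ph δ (Real.log ((w.1 * w.2 : ℕ) : ℝ) - u) -
        ph δ' (Real.log ((w.1 * w.2 : ℕ) : ℝ) - u))) :=
      ((HP_ph_int hδ _).sub (HP_ph_int hδ' _)).bdd_mul hCm hCb'
    refine (Integrable.const_mul ?_ (f w))
    refine i1.ofReal.congr (Filter.Eventually.of_forall fun u => ?_)
    exact Complex.ofReal_mul _ _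
  have hsum : ∑ w ∈ T, f w * gW N c δ δ' (w.1 * w.2) =
      ∫ u : ℝ, ((CC N c u : ℝ) : ℂ) * G u := by
    have e1 : ∀ w ∈ T, f w * gW N c δ δ' (w.1 * w.2) = ∫ u : ℝ, f w * (((CC N c u : ℝ) : ℂ) *
      ((ph δ (Real.log ((w.1 * w.2 : ℕ) : ℝ) - u) -
        ph δ' (Real.log ((w.1 * w.2 : ℕ) : ℝ) - u) : ℝ) : ℂ)) := by
      intro w _
      rw [hgW, integral_const_mul]
    rw [Finset.sum_congr rfl e1, ← integral_finsetSum _ fun w _ => hiw w]
    refine integral_congr_ae (Filter.Eventually.of_forall fun u => ?_)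
    simp only [hG]
    rw [Finset.mul_sum]
    refine Finset.sum_congr rfl fun w _ => ?_
    ring
  -- Cauchy-Schwarz
  have hGc : Continuous G := by
    rw [hG]
    have h1 := HP_ph_cont δ
    have h2 := HP_ph_cont δ'
    refine continuous_finsetSum _ fun w _ => ?_
    refine continuous_const.mul (Complex.continuous_ofReal.comp ?_)
    exact (h1.comp (by fun_prop)).sub (h2.comp (by fun_prop))
  have hGm : AEStronglyMeasurable G volume := hGc.aestronglyMeasurable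
  have hCm' : AEStronglyMeasurable (fun u => ((CC N c u : ℝ) : ℂ)) volume :=
    Complex.continuous_ofReal.comp_aestronglyMeasurable hCm
  have hLog : 3 * Real.log N ≤ 3 * Real.log (2 * N) := by
    have := Real.log_le_log hN0 (by linarith : (N : ℝ) ≤ 2 * N)
    linarith
  have hCC2 : Integrable (fun u => ‖((CC N c u : ℝ) : ℂ)‖ ^ 2) ∧
      ∫ u : ℝ, ‖((CC N c u : ℝ) : ℂ)‖ ^ 2 ≤ 3 * Real.log 2 := by
    set I : ℝ → ℝ := Set.indicator (Set.Ioc (3 * Real.log N) (3 * Real.log (2 * N)))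
      (fun _ => (1 : ℝ)) with hI
    have hIi : Integrable I := by
      rw [hI, integrable_indicator_iff measurableSet_Ioc]
      exact integrableOn_const (by simp) (by simp)
    have hIint : ∫ u, I u = 3 * Real.log 2 := by
      rw [hI, integral_indicator measurableSet_Ioc, setIntegral_const, smul_eq_mul, mul_one,
        Real.volume_real_Ioc_of_le hLog, Real.log_mul (by norm_num) hN0.ne']
      ring
    have hle : ∀ u, ‖((CC N c u : ℝ) : ℂ)‖ ^ 2 ≤ I u := by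
      intro u
      rw [Complex.norm_real, Real.norm_eq_abs]
      by_cases h0 : CC N c u = 0
      · rw [h0, abs_zero]
        have : 0 ≤ I u := Set.indicator_nonneg (fun _ _ => zero_le_one) u
        simpa using this
      · have hm := hCs u h0
        have hm' : u ∈ Set.Ioc (3 * Real.log (N : ℝ)) (3 * Real.log (2 * N)) := ⟨hm.1, hm.2⟩
        have : I u = 1 := Set.indicator_of_mem hm' _
        rw [this]
        exact pow_le_one₀ (abs_nonneg _) (hCb u)
    have hint : Integrable (fun u => ‖((CC N c u : ℝ) : ℂ)‖ ^ 2) := by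
      refine hIi.mono' (hCm'.norm.pow 2) (Filter.Eventually.of_forall fun u => ?_)
      rw [Real.norm_of_nonneg (by positivity)]
      exact hle u
    exact ⟨hint, (integral_mono hint hIi hle).trans hIint.le⟩
  have hmC : MemLp (fun u => ((CC N c u : ℝ) : ℂ)) 2 volume :=
    (memLp_two_iff_integrable_sq_norm hCm').mpr hCC2.1
  have hmG : MemLp G 2 volume := (memLp_two_iff_integrable_sq_norm hGm).mpr iG2
  have h2 : (ENNReal.ofReal 2) = 2 := by norm_num
  have hCS := integral_mul_norm_le_Lp_mul_Lq (μ := (volume : Measure ℝ)) Real.HolderConjugate.two_two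
    (f := fun u => ((CC N c u : ℝ) : ℂ)) (g := G) (by rw [h2]; exact hmC) (by rw [h2]; exact hmG)
  rw [hsum]
  refine le_trans (norm_integral_le_integral_norm _) ?_
  simp_rw [norm_mul]
  refine le_trans hCS ?_
  simp_rw [Real.rpow_two]
  rw [← Real.sqrt_eq_rpow, ← Real.sqrt_eq_rpow, ← Real.sqrt_mul (integral_nonneg fun u => by positivity)]
  apply Real.sqrt_le_sqrt
  have hpl : ∫ t : ℝ, ‖∑ w ∈ T, f w * nit t ((w.1 * w.2 : ℕ) : ℝ)‖ ^ 2 * mu2 δ δ' t ^ 2 =
      2 * Real.pi * ∫ u : ℝ, ‖G u‖ ^ 2 := hplan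
  rw [hpl]
  refine mul_le_mul_of_nonneg_right (hCC2.2.trans ?_) (integral_nonneg fun u => by positivity)
  have hpi := Real.pi_gt_three
  have hl := Real.log_two_lt_d9
  linarith

end Pool.Agent.CH
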